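import Pool.Agent.Y924.UF.Stm2

/-! # UF2-ROOT: roots of order `p + 1` of one-units -/

set_option autoImplicit false

namespace Pool.Agent.Y675.UF

open PowerSeries

variable (p : ℕ) [hp : Fact p.Prime]

/-- the exponents `(1 + p ^ (2 n + 1)) / (p + 1)` -/
def ee (p : ℕ) (n : ℕ) : ℕ := (1 + p ^ (2 * n + 1)) / (p + 1)

theorem ee_mul (p n : ℕ) : ee p n * (p + 1) = 1 + p ^ (2 * n + 1) := by
  unfold ee
  refine Nat.div_mul_cancel ?_
  have h : Odd (2 * n + 1) := ⟨n, rfl⟩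
  have := h.nat_add_dvd_pow_add_pow 1 p
  rw [one_pow] at this
  rwa [add_comm p 1]

theorem ee_succ (p n : ℕ) (hp : 0 < p) : ee p (n + 1) = ee p n + p ^ (2 * n + 1) * (p - 1) := by
  have h1 := ee_mul p (n + 1)
  have h2 := ee_mul p n
  obtain ⟨q, rfl⟩ : ∃ q, p = q + 1 := ⟨p - 1, by omega⟩
  have h3 : (ee (q + 1) n + (q + 1) ^ (2 * n + 1) * (q + 1 - 1)) * (q + 1 + 1) =
      ee (q + 1) (n + 1) * (q + 1 + 1) := by
    rw [h1, add_mul, h2, Nat.add_sub_cancel]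
    ring
  exact (Nat.eq_of_mul_eq_mul_right (by omega) h3).symm

theorem pow_sub_one (A : (ZMod p)⟦X⟧) (hA : constantCoeff A = 1) (k : ℕ) :
    (X : (ZMod p)⟦X⟧) ^ (p ^ k) ∣ A ^ (p ^ k) - 1 := by
  have h1 : (X : (ZMod p)⟦X⟧) ∣ A - 1 := by
    rw [X_dvd_iff, map_sub, hA, map_one, sub_self]
  have : CharP (ZMod p)⟦X⟧ p :=
    charP_of_injective_ringHom (f := PowerSeries.C (R := ZMod p)) PowerSeries.C_injective p
  have h2 : A ^ (p ^ k) - 1 = (A - 1) ^ (p ^ k) := by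
    rw [sub_pow_char_pow, one_pow]
  rw [h2]
  exact pow_dvd_pow_of_dvd h1 _

theorem step (A : (ZMod p)⟦X⟧) (hA : constantCoeff A = 1) (n : ℕ) :
    (X : (ZMod p)⟦X⟧) ^ (n + 1) ∣ A ^ ee p (n + 1) - A ^ ee p n := by
  have h0 : n + 1 ≤ p ^ (2 * n + 1) :=
    (Nat.lt_pow_self hp.out.one_lt).le.trans (Nat.pow_le_pow_right hp.out.pos (by omega))
  have h1 : (X : (ZMod p)⟦X⟧) ^ (n + 1) ∣ A ^ (p ^ (2 * n + 1)) - 1 :=
    (pow_dvd_pow _ h0).trans (pow_sub_one p A hA _)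
  have h2 := h1.trans (sub_dvd_pow_sub_pow (A ^ (p ^ (2 * n + 1))) 1 (p - 1))
  have e : A ^ ee p (n + 1) = A ^ ee p n * (A ^ p ^ (2 * n + 1)) ^ (p - 1) := by
    rw [ee_succ p n hp.out.pos, pow_add, pow_mul]
  rw [e]
  have h3 : A ^ ee p n * (A ^ p ^ (2 * n + 1)) ^ (p - 1) - A ^ ee p n =
      A ^ ee p n * ((A ^ p ^ (2 * n + 1)) ^ (p - 1) - 1 ^ (p - 1)) := by
    rw [one_pow]
    ring
  rw [h3]
  exact h2.mul_left _

theorem step_le (A : (ZMod p)⟦X⟧) (hA : constantCoeff A = 1) (m n : ℕ) (hmn : m ≤ n) :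
    (X : (ZMod p)⟦X⟧) ^ (m + 1) ∣ A ^ ee p n - A ^ ee p m := by
  induction n, hmn using Nat.le_induction with
  | base => rw [sub_self]; exact dvd_zero _
  | succ n hn ih =>
    have h1 := (pow_dvd_pow (X : (ZMod p)⟦X⟧) (show m + 1 ≤ n + 1 by omega)).trans
      (step p A hA n)
    have h2 := dvd_add h1 ih
    rwa [sub_add_sub_cancel] at h2

theorem exists_root (A : (ZMod p)⟦X⟧) (hA : constantCoeff A = 1) :
    ∃ Y : (ZMod p)⟦X⟧, Y ^ (p + 1) = A := by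
  refine ⟨PowerSeries.mk fun n => coeff n (A ^ ee p n), ?_⟩
  set Y : (ZMod p)⟦X⟧ := PowerSeries.mk fun n => coeff n (A ^ ee p n) with hY
  have h1 : ∀ n, (X : (ZMod p)⟦X⟧) ^ (n + 1) ∣ Y - A ^ ee p n := by
    intro n
    rw [X_pow_dvd_iff]
    intro m hm
    have h2 := step_le p A hA m n (by omega)
    rw [X_pow_dvd_iff] at h2
    have h3 := h2 m (Nat.lt_succ_self m)
    rw [map_sub] at h3 ⊢
    rw [hY, coeff_mk, sub_eq_zero]
    exact (sub_eq_zero.1 h3).symm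
  ext n
  have h2 : (X : (ZMod p)⟦X⟧) ^ (n + 1) ∣ Y ^ (p + 1) - A := by
    have h3 := (h1 n).trans (sub_dvd_pow_sub_pow Y (A ^ ee p n) (p + 1))
    have h0 : n + 1 ≤ p ^ (2 * n + 1) :=
      (Nat.lt_pow_self hp.out.one_lt).le.trans (Nat.pow_le_pow_right hp.out.pos (by omega))
    have h4 : (X : (ZMod p)⟦X⟧) ^ (n + 1) ∣ A ^ (p ^ (2 * n + 1)) - 1 :=
      (pow_dvd_pow _ h0).trans (pow_sub_one p A hA _)
    have h5 := dvd_add h3 (h4.mul_left A)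
    have e : (A ^ ee p n) ^ (p + 1) = A * A ^ p ^ (2 * n + 1) := by
      rw [← pow_mul, ee_mul, pow_add, pow_one]
    rw [e] at h5
    have h6 : Y ^ (p + 1) - A * A ^ p ^ (2 * n + 1) + A * (A ^ p ^ (2 * n + 1) - 1) =
        Y ^ (p + 1) - A := by ring
    rwa [h6] at h5
  rw [X_pow_dvd_iff] at h2
  have h3 := h2 n (Nat.lt_succ_self n)
  rw [map_sub] at h3
  exact sub_eq_zero.1 h3

theorem t_ROOT : Pool.Agent.Y924.UF.S_ROOT := by
  intro p _ a ha h0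
  set A : (ZMod p)⟦X⟧ := PowerSeries.mk fun n => a.coeff (n : ℤ) with hA
  have hcA : constantCoeff A = 1 := by
    rw [← coeff_zero_eq_constantCoeff_apply, hA, coeff_mk]
    exact_mod_cast h0
  obtain ⟨Y, hY⟩ := exists_root p A hcA
  have hcoe : ((A : (ZMod p)⟦X⟧) : LaurentSeries (ZMod p)) = a := by
    ext i
    rw [PowerSeries.coeff_coe]
    split_ifs with hi
    · exact (ha i hi).symm
    · rw [hA, coeff_mk]
      congr 1
      omega
  refine ⟨(Y : LaurentSeries (ZMod p)), ?_⟩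
  rw [← hcoe, ← hY, PowerSeries.coe_pow]

end Pool.Agent.Y675.UF
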